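import Mathlib

set_option autoImplicit false

namespace Pool.Agent.P.MP_bd6b97_lc

open Set Function Relation MeasureTheory

/-- Measurable data attached to a cubic Borel graph. -/
structure Cub {V : Type} [MeasurableSpace V] (G : SimpleGraph V) where
  nb : Fin 3 → V → V
  meas_nb : ∀ i, Measurable (nb i)
  adj_iff : ∀ u v, G.Adj u v ↔ ∃ i, nb i u = v
  inj_nb : ∀ u, Injective (fun i => nb i u)
  U : ℕ → Set V
  meas_U : ∀ n, MeasurableSet (U n)
  sep : ∀ A B : Set V, A.Finite → B.Finite → Disjoint A B → ∀ N : ℕ,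
    ∃ n, N ≤ n ∧ A ⊆ U n ∧ ∀ b ∈ B, b ∉ U n
  io : V → ℝ
  meas_io : Measurable io
  inj_io : Injective io

section existence

variable {V : Type} [MeasurableSpace V] [StandardBorelSpace V]

lemma exists_sep_seq : ∃ U : ℕ → Set V, (∀ n, MeasurableSet (U n)) ∧
    ∀ A B : Set V, A.Finite → B.Finite → Disjoint A B → ∀ N : ℕ,
      ∃ n, N ≤ n ∧ A ⊆ U n ∧ ∀ b ∈ B, b ∉ U n := by
  classical
  obtain ⟨f, hf, hinj⟩ := MeasurableSpace.measurable_injection_nat_bool_of_countablySeparated V
  let I := (Σ k : ℕ, Finset (Fin k → Bool)) × ℕ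
  obtain ⟨e, he⟩ : ∃ e : ℕ → I, Surjective e := exists_surjective_nat I
  let W : (Σ k : ℕ, Finset (Fin k → Bool)) → Set V := fun q =>
    {v | (fun i : Fin q.1 => f v i) ∈ q.2}
  refine ⟨fun n => W (e n).1, fun n => ?_, ?_⟩
  · have h1 : Measurable fun v : V => (fun i : Fin (e n).1.1 => f v i) :=
      measurable_pi_lambda _ fun i => (measurable_pi_apply _).comp hf
    exact h1 (Finset.measurableSet _)
  · intro A B hA hB hAB N
    have hpair : ∀ p : V × V, p ∈ A ×ˢ B → ∃ k, f p.1 k ≠ f p.2 k := by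
      rintro ⟨a, b⟩ ⟨ha, hb⟩
      by_contra hcon
      push Not at hcon
      have : a = b := hinj (funext hcon)
      exact Set.disjoint_left.1 hAB ha (this ▸ hb)
    choose! k hk using hpair
    obtain ⟨K, hK⟩ := ((hA.prod hB).image k).bddAbove
    let q : (Σ k : ℕ, Finset (Fin k → Bool)) :=
      ⟨K + 1, hA.toFinset.image fun v => (fun i : Fin (K + 1) => f v i)⟩
    have hinf : {n | (e n).1 = q}.Infinite := by
      intro hfin
      have : (Set.univ : Set ℕ) ⊆ (fun n => (e n).2) '' {n | (e n).1 = q} := by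
        intro m _
        obtain ⟨n, hn⟩ := he (q, m)
        exact ⟨n, by simp [hn], by simp [hn]⟩
      exact Set.infinite_univ ((hfin.image _).subset this)
    obtain ⟨n, hn, hNn⟩ := hinf.exists_gt N
    refine ⟨n, hNn.le, ?_, ?_⟩
    · intro a ha
      have hn' : (e n).1 = q := hn
      simp only [hn', W, q, mem_ofPred_eq, Finset.mem_image]
      exact ⟨a, by simpa using ha, rfl⟩
    · intro b hb hbW
      have hn' : (e n).1 = q := hn
      simp only [hn', W, q, mem_ofPred_eq, Finset.mem_image] at hbW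
      obtain ⟨a, ha, hab⟩ := hbW
      have ha' : a ∈ A := by simpa using ha
      have h1 := hk (a, b) ⟨ha', hb⟩
      have h2 : k (a, b) ≤ K := hK ⟨(a, b), ⟨ha', hb⟩, rfl⟩
      exact h1 (congrFun hab ⟨k (a, b), by omega⟩)

omit [MeasurableSpace V] [StandardBorelSpace V] in
lemma exists_sorted_three {G : SimpleGraph V} (io : V → ℝ) (hio : Injective io) (v : V)
    (h : (G.neighborSet v).ncard = 3) :
    ∃ a b c, io a < io b ∧ io b < io c ∧ G.neighborSet v = {a, b, c} := by
  obtain ⟨x, y, z, hxy, hxz, hyz, hs⟩ := Set.ncard_eq_three.1 h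
  have h1 : io x ≠ io y := fun h => hxy (hio h)
  have h2 : io x ≠ io z := fun h => hxz (hio h)
  have h3 : io y ≠ io z := fun h => hyz (hio h)
  rcases lt_or_gt_of_ne h1 with a1 | a1 <;> rcases lt_or_gt_of_ne h2 with a2 | a2 <;>
    rcases lt_or_gt_of_ne h3 with a3 | a3
  · exact ⟨x, y, z, a1, a3, hs⟩
  · exact ⟨x, z, y, a2, a3, by rw [hs]; ext; simp; tauto⟩
  · linarith
  · exact ⟨z, x, y, a2, a1, by rw [hs]; ext; simp; tauto⟩
  · exact ⟨y, x, z, a1, a2, by rw [hs]; ext; simp; tauto⟩
  · linarith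
  · exact ⟨y, z, x, a3, a2, by rw [hs]; ext; simp; tauto⟩
  · exact ⟨z, y, x, a3, a1, by rw [hs]; ext; simp; tauto⟩

lemma nonempty_cub (G : SimpleGraph V) (hG : MeasurableSet {p : V × V | G.Adj p.1 p.2})
    (h3 : ∀ v : V, (G.neighborSet v).ncard = 3) : Nonempty (Cub G) := by
  classical
  obtain ⟨U, hU, hsep⟩ := exists_sep_seq (V := V)
  let io := embeddingReal V
  have hio : Measurable io := measurable_embeddingReal V
  have hinj : Injective io := (measurableEmbedding_embeddingReal V).injective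
  have hadj : Measurable fun p : V × V => G.Adj p.1 p.2 := measurableSet_setOfPred.1 hG
  let T : Set (V × V × V × V) := {q | G.Adj q.1 q.2.1 ∧ G.Adj q.1 q.2.2.1 ∧ G.Adj q.1 q.2.2.2 ∧
    io q.2.1 < io q.2.2.1 ∧ io q.2.2.1 < io q.2.2.2}
  have hT : MeasurableSet T := by
    refine measurableSet_setOfPred.2 ?_
    refine Measurable.and (hadj.comp (f := fun q : V × V × V × V => (q.1, q.2.1)) (by fun_prop))
      (Measurable.and (hadj.comp (f := fun q : V × V × V × V => (q.1, q.2.2.1)) (by fun_prop))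
      (Measurable.and (hadj.comp (f := fun q : V × V × V × V => (q.1, q.2.2.2)) (by fun_prop))
      (Measurable.and (Measurable.lt (by fun_prop) (by fun_prop))
        (Measurable.lt (by fun_prop) (by fun_prop)))))
  have : StandardBorelSpace T := hT.standardBorel
  choose a b c hab hbc hs using fun v => exists_sorted_three io hinj v (h3 v)
  have hmem : ∀ v w, G.Adj v w ↔ w = a v ∨ w = b v ∨ w = c v := by
    intro v w
    rw [← SimpleGraph.mem_neighborSet, hs v]; simp
  have key : ∀ q ∈ T, q.2 = (a q.1, b q.1, c q.1) := by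
    rintro ⟨v, x, y, z⟩ ⟨hx, hy, hz, h1, h2⟩
    have := hab v
    have := hbc v
    simp only at hx hy hz h1 h2 ⊢
    rw [hmem] at hx hy hz
    rcases hx with rfl | rfl | rfl <;> rcases hy with rfl | rfl | rfl <;>
      rcases hz with rfl | rfl | rfl <;> first | rfl | (exfalso; linarith)
  let pr : T → V := fun q => q.1.1
  have hpr : Measurable pr := by fun_prop
  have hprinj : Injective pr := by
    intro q q' h
    apply Subtype.ext
    apply Prod.ext h
    rw [key q.1 q.2, key q'.1 q'.2]
    have h' : q.1.1 = q'.1.1 := h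
    rw [h']
  have hemb : MeasurableEmbedding pr := hpr.measurableEmbedding hprinj
  have hmT : ∀ v, (v, a v, b v, c v) ∈ T := fun v =>
    ⟨(hmem v _).2 (Or.inl rfl), (hmem v _).2 (Or.inr (Or.inl rfl)),
      (hmem v _).2 (Or.inr (Or.inr rfl)), hab v, hbc v⟩
  have hall : Measurable fun v => (a v, b v, c v) := by
    have hg : Measurable fun q : T => q.1.2 := by fun_prop
    have := hemb.measurable_extend hg (g' := fun v => (v, v, v)) (by fun_prop)
    convert this using 1
    funext v
    have := hprinj.extend_apply (fun q : T => q.1.2) (fun v => (v, v, v)) ⟨_, hmT v⟩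
    exact this.symm
  refine ⟨⟨fun i v => ![a v, b v, c v] i, ?_, ?_, ?_, U, hU, hsep, io, hio, hinj⟩⟩
  · intro i
    fin_cases i
    · exact hall.fst
    · exact hall.snd.fst
    · exact hall.snd.snd
  · intro u v
    rw [hmem]
    simp [Fin.exists_fin_succ, eq_comm]
  · intro u i j hij
    have := hab u
    have := hbc u
    fin_cases i <;> fin_cases j <;> simp at hij ⊢ <;> (have := congrArg io hij; linarith)

end existence

lemma meas_rtg {Y ι : Type} [MeasurableSpace Y] [Countable ι]
    (hdiag : Measurable fun p : Y × Y => p.1 = p.2)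
    (f : ι → Y → Y) (hf : ∀ i, Measurable (f i)) (R : Y → Y → Prop)
    (hR : Measurable fun p : Y × Y => R p.1 p.2) (hRf : ∀ a b, R a b → ∃ i, f i a = b) :
    Measurable fun p : Y × Y => ReflTransGen R p.1 p.2 := by
  let E : ℕ → Y → Y → Prop := fun k => Nat.rec (fun a b => a = b)
    (fun _ E' a b => ∃ i, R a (f i a) ∧ E' (f i a) b) k
  have hE : ∀ k, Measurable fun p : Y × Y => E k p.1 p.2 := by
    intro k
    induction k with
    | zero => exact hdiag
    | succ k ih =>
      refine Measurable.exists fun i => Measurable.and ?_ ?_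
      · exact hR.comp (f := fun p : Y × Y => (p.1, f i p.1)) (by have := hf i; fun_prop)
      · exact ih.comp (f := fun p : Y × Y => (f i p.1, p.2)) (by have := hf i; fun_prop)
  have hiff : ∀ a b, ReflTransGen R a b ↔ ∃ k, E k a b := by
    intro a b
    constructor
    · intro h
      induction h using ReflTransGen.head_induction_on with
      | refl => exact ⟨0, rfl⟩
      | head hac _ ih =>
        obtain ⟨k, hk⟩ := ih
        obtain ⟨i, rfl⟩ := hRf _ _ hac
        exact ⟨k + 1, i, hac, hk⟩
    · rintro ⟨k, hk⟩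
      induction k generalizing a with
      | zero => cases hk; exact ReflTransGen.refl
      | succ k ih =>
        obtain ⟨i, h1, h2⟩ := hk
        exact ReflTransGen.head h1 (ih _ h2)
  simp_rw [hiff]
  exact Measurable.exists hE

namespace Cub

variable {V : Type} [MeasurableSpace V] {G : SimpleGraph V} (C : Cub G)
variable {X : Type} [MeasurableSpace X]

include C in
lemma meas_eq {f g : X → V} (hf : Measurable f) (hg : Measurable g) :
    Measurable fun x => f x = g x := by
  have : (fun x => f x = g x) = fun x => C.io (f x) = C.io (g x) := by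
    funext x; exact propext C.inj_io.eq_iff.symm
  rw [this]
  exact Measurable.eq (C.meas_io.comp hf) (C.meas_io.comp hg)

include C in
lemma meas_adj {f g : X → V} (hf : Measurable f) (hg : Measurable g) :
    Measurable fun x => G.Adj (f x) (g x) := by
  simp_rw [C.adj_iff]
  exact Measurable.exists fun i => C.meas_eq ((C.meas_nb i).comp hf) hg

lemma adj_nb (i : Fin 3) (u : V) : G.Adj u (C.nb i u) := (C.adj_iff _ _).2 ⟨i, rfl⟩

/-- the endpoint of the walk coded by a word -/
def wd (s : List (Fin 3)) (u : V) : V := s.foldr C.nb u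

lemma meas_wd (s : List (Fin 3)) : Measurable (C.wd s) := by
  induction s with
  | nil => exact measurable_id
  | cons i s ih => exact (C.meas_nb i).comp ih

lemma walk_iff (u v : V) (k : ℕ) :
    (∃ p : G.Walk u v, p.length = k) ↔ ∃ s : List (Fin 3), s.length = k ∧ C.wd s u = v := by
  constructor
  · rintro ⟨p, rfl⟩
    induction p using SimpleGraph.Walk.concatRec with
    | Hnil => exact ⟨[], rfl, rfl⟩
    | Hconcat p h ih =>
      obtain ⟨s, hs, rfl⟩ := ih
      obtain ⟨i, rfl⟩ := (C.adj_iff _ _).1 h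
      exact ⟨i :: s, by simp [hs], rfl⟩
  · rintro ⟨s, rfl, rfl⟩
    induction s with
    | nil => exact ⟨SimpleGraph.Walk.nil, rfl⟩
    | cons i s ih =>
      obtain ⟨p, hp⟩ := ih
      exact ⟨p.concat (C.adj_nb i _), by simp [hp]⟩

lemma reach_iff (u v : V) : G.Reachable u v ↔ ∃ s : List (Fin 3), C.wd s u = v := by
  constructor
  · rintro ⟨p⟩
    obtain ⟨s, -, hs⟩ := (C.walk_iff u v _).1 ⟨p, rfl⟩
    exact ⟨s, hs⟩
  · rintro ⟨s, hs⟩
    obtain ⟨p, -⟩ := (C.walk_iff u v _).2 ⟨s, rfl, hs⟩
    exact ⟨p⟩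

include C in
lemma meas_reach {f g : X → V} (hf : Measurable f) (hg : Measurable g) :
    Measurable fun x => G.Reachable (f x) (g x) := by
  simp_rw [C.reach_iff]
  exact Measurable.exists fun s => C.meas_eq ((C.meas_wd s).comp hf) hg

include C in
lemma meas_ex {a : X → V} (ha : Measurable a) {Q : X → V → Prop}
    (hQ : Measurable fun p : X × V => Q p.1 p.2) :
    Measurable fun x => ∃ y, G.Reachable (a x) y ∧ Q x y := by
  have : (fun x => ∃ y, G.Reachable (a x) y ∧ Q x y) =
      fun x => ∃ s : List (Fin 3), Q x (C.wd s (a x)) := by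
    funext x
    apply propext
    constructor
    · rintro ⟨y, hy, hq⟩
      obtain ⟨s, rfl⟩ := (C.reach_iff _ _).1 hy
      exact ⟨s, hq⟩
    · rintro ⟨s, hs⟩
      exact ⟨_, (C.reach_iff _ _).2 ⟨s, rfl⟩, hs⟩
  rw [this]
  refine Measurable.exists fun s => ?_
  exact hQ.comp (f := fun x => (x, C.wd s (a x)))
    (measurable_id.prodMk ((C.meas_wd s).comp ha))

include C in
lemma meas_ex' {a : X → V} (ha : Measurable a) {Q : X → V → Prop}
    (hr : ∀ x y, Q x y → G.Reachable (a x) y)
    (hQ : Measurable fun p : X × V => Q p.1 p.2) :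
    Measurable fun x => ∃ y, Q x y := by
  have : (fun x => ∃ y, Q x y) = fun x => ∃ y, G.Reachable (a x) y ∧ Q x y := by
    funext x
    exact propext ⟨fun ⟨y, hy⟩ => ⟨y, hr x y hy, hy⟩, fun ⟨y, hy⟩ => ⟨y, hy.2⟩⟩
  rw [this]
  exact C.meas_ex ha hQ

include C in
lemma meas_all' {a : X → V} (ha : Measurable a) {P Q : X → V → Prop}
    (hr : ∀ x y, P x y → G.Reachable (a x) y)
    (hP : Measurable fun p : X × V => P p.1 p.2)
    (hQ : Measurable fun p : X × V => Q p.1 p.2) :
    Measurable fun x => ∀ y, P x y → Q x y := by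
  have : (fun x => ∀ y, P x y → Q x y) = fun x => ¬ ∃ y, P x y ∧ ¬ Q x y := by
    funext x
    apply propext
    push Not
    rfl
  rw [this]
  exact (C.meas_ex' ha (fun x y h => hr x y h.1) (hP.and hQ.not)).not

include C in
lemma meas_dist {f g : X → V} (hf : Measurable f) (hg : Measurable g) :
    Measurable fun x => G.dist (f x) (g x) := by
  have hW : ∀ k, Measurable fun x => ∃ p : G.Walk (f x) (g x), p.length = k := by
    intro k
    simp_rw [C.walk_iff]
    exact Measurable.exists fun s => Measurable.and measurable_const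
      (C.meas_eq ((C.meas_wd s).comp hf) hg)
  refine measurable_to_countable' fun k => ?_
  have : (fun x => G.dist (f x) (g x)) ⁻¹' {k} =
      {x | ((∃ p : G.Walk (f x) (g x), p.length = k) ∧
        ∀ j, (∃ p : G.Walk (f x) (g x), p.length = j) → k ≤ j) ∨
        (k = 0 ∧ ¬ G.Reachable (f x) (g x))} := by
    ext x
    simp only [mem_preimage, mem_singleton_iff, mem_ofPred_eq]
    by_cases hr : G.Reachable (f x) (g x)
    · obtain ⟨p, hp⟩ := hr.exists_walk_length_eq_dist
      constructor
      · rintro rfl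
        exact Or.inl ⟨⟨p, hp⟩, fun j ⟨q, hq⟩ => hq ▸ SimpleGraph.dist_le q⟩
      · rintro (⟨⟨q, hq⟩, h2⟩ | h)
        · exact le_antisymm (hq ▸ SimpleGraph.dist_le q) (h2 _ ⟨p, hp⟩)
        · exact absurd hr h.2
    · rw [SimpleGraph.dist_eq_zero_of_not_reachable hr]
      constructor
      · rintro rfl; exact Or.inr ⟨rfl, hr⟩
      · rintro (⟨⟨q, -⟩, -⟩ | h)
        · exact absurd ⟨q⟩ hr
        · exact h.1.symm
  rw [this]
  refine measurableSet_setOfPred.2 ?_
  exact ((hW k).and (Measurable.forall fun j => (hW j).imp measurable_const)).or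
    (measurable_const.and (C.meas_reach hf hg).not)

include C in
lemma meas_rtgV (R : V → V → Prop) (hR : Measurable fun p : V × V => R p.1 p.2)
    (hRa : ∀ a b, R a b → G.Adj a b) {f g : X → V} (hf : Measurable f) (hg : Measurable g) :
    Measurable fun x => ReflTransGen R (f x) (g x) :=
  (meas_rtg (C.meas_eq measurable_fst measurable_snd) C.nb C.meas_nb R hR
    (fun a b h => (C.adj_iff a b).1 (hRa a b h))).comp (hf.prodMk hg)

include C in
lemma finite_nbr (v : V) : {w | G.Adj v w}.Finite := by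
  refine (Set.finite_range fun i => C.nb i v).subset ?_
  intro w hw
  exact (C.adj_iff v w).1 hw

include C in
lemma finite_ball (v : V) (k : ℕ) : {w | G.Reachable v w ∧ G.dist v w ≤ k}.Finite := by
  have h1 : {s : List (Fin 3) | s.length ≤ k}.Finite := List.finite_length_le _ k
  refine (h1.image fun s => C.wd s v).subset ?_
  rintro w ⟨hr, hd⟩
  obtain ⟨p, hp⟩ := hr.exists_walk_length_eq_dist
  obtain ⟨s, hs, hw⟩ := (C.walk_iff v w _).1 ⟨p, hp⟩
  exact ⟨s, by simp [hs, hd], hw⟩

include C in
/-- two neighbours other than a given vertex -/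
lemma exists_two (v u : V) :
    ∃ a b, a ≠ b ∧ G.Adj v a ∧ G.Adj v b ∧ a ≠ u ∧ b ≠ u := by
  have h01 : C.nb 0 v ≠ C.nb 1 v := fun h => by simpa using C.inj_nb v h
  have h02 : C.nb 0 v ≠ C.nb 2 v := fun h => by simpa using C.inj_nb v h
  have h12 : C.nb 1 v ≠ C.nb 2 v := fun h => by simpa using C.inj_nb v h
  by_cases h0 : C.nb 0 v = u
  · exact ⟨_, _, h12, C.adj_nb 1 v, C.adj_nb 2 v, fun h => h01 (h0.trans h.symm),
      fun h => h02 (h0.trans h.symm)⟩
  by_cases h1 : C.nb 1 v = u
  · exact ⟨_, _, h02, C.adj_nb 0 v, C.adj_nb 2 v, h0, fun h => h12 (h1.trans h.symm)⟩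
  · exact ⟨_, _, h01, C.adj_nb 0 v, C.adj_nb 1 v, h0, h1⟩

end Cub

end Pool.Agent.P.MP_bd6b97_lc
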