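import Pool.Agent.P.MP_bd6b97_lc.Basic

set_option autoImplicit false

namespace Pool.Agent.P.MP_bd6b97_lc

open Set Function Relation MeasureTheory

variable {V : Type}

/-- bichromatic edge -/
def Bi (G : SimpleGraph V) (c : V → Bool) (a b : V) : Prop := G.Adj a b ∧ c a ≠ c b

/-- at least two neighbours of the other colour -/
def Happy (G : SimpleGraph V) (c : V → Bool) (v : V) : Prop :=
  ∃ a b, a ≠ b ∧ Bi G c v a ∧ Bi G c v b

/-- every point has two neighbours of the other colour inside the set -/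
def Leafless (G : SimpleGraph V) (c : V → Bool) (F : Set V) : Prop :=
  ∀ v ∈ F, ∃ a b, a ≠ b ∧ Bi G c v a ∧ Bi G c v b ∧ a ∈ F ∧ b ∈ F

/-- the largest leafless set -/
def Core (G : SimpleGraph V) (c : V → Bool) : Set V := {v | ∃ F, Leafless G c F ∧ v ∈ F}

def CoreY (G : SimpleGraph V) (c : V → Bool) : ℕ → Set V
  | 0 => univ
  | k + 1 => {v | ∃ a b, a ≠ b ∧ Bi G c v a ∧ Bi G c v b ∧ a ∈ CoreY G c k ∧ b ∈ CoreY G c k}

variable {G : SimpleGraph V}

lemma Bi.symm {c : V → Bool} {a b : V} (h : Bi G c a b) : Bi G c b a := ⟨h.1.symm, h.2.symm⟩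

lemma leafless_core (c : V → Bool) : Leafless G c (Core G c) := by
  rintro v ⟨F, hF, hv⟩
  obtain ⟨a, b, hab, ha, hb, haF, hbF⟩ := hF v hv
  exact ⟨a, b, hab, ha, hb, ⟨F, hF, haF⟩, ⟨F, hF, hbF⟩⟩

lemma coreY_anti (c : V → Bool) : Antitone (CoreY G c) := by
  refine antitone_nat_of_succ_le fun k => ?_
  induction k with
  | zero => exact subset_univ _
  | succ k ih =>
    rintro v ⟨a, b, hab, ha, hb, haF, hbF⟩
    exact ⟨a, b, hab, ha, hb, ih haF, ih hbF⟩

/-- the eventual value of a sequence of colourings -/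
noncomputable def lim (d : ℕ → V → Bool) (v : V) : Bool :=
  by classical exact decide (∃ N, ∀ n, N ≤ n → d n v = true)

lemma lim_eq {d : ℕ → V → Bool} {v : V} {N : ℕ} (h : ∀ n, N ≤ n → d (n + 1) v = d n v) :
    ∀ n, N ≤ n → d n v = lim d v := by
  have h1 : ∀ n, N ≤ n → d n v = d N v := by
    intro n hn
    induction n, hn using Nat.le_induction with
    | base => rfl
    | succ n hn ih => rw [h n hn, ih]
  intro n hn
  rw [h1 n hn]
  unfold lim
  cases hd : d N v with
  | true =>
    symm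
    simp only [decide_eq_true_eq]
    exact ⟨N, fun m hm => by rw [h1 m hm, hd]⟩
  | false =>
    symm
    simp only [decide_eq_false_iff_not]
    rintro ⟨M, hM⟩
    have := hM (max M N) (le_max_left _ _)
    rw [h1 _ (le_max_right _ _), hd] at this
    exact Bool.false_ne_true this

lemma lim_eq_finite {d : ℕ → V → Bool} {A : Set V} (hA : A.Finite)
    (h : ∀ v ∈ A, ∃ N, ∀ n, N ≤ n → d (n + 1) v = d n v) :
    ∃ N, ∀ n, N ≤ n → ∀ v ∈ A, d n v = lim d v := by
  choose! N hN using h
  obtain ⟨K, hK⟩ := (hA.image N).bddAbove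
  refine ⟨K, fun n hn v hv => lim_eq (hN v hv) n ?_⟩
  exact (hK ⟨v, hv, rfl⟩).trans hn

variable [MeasurableSpace V]

lemma meas_decide {X : Type} [MeasurableSpace X] {P : X → Prop} [DecidablePred P]
    (hP : Measurable P) : Measurable fun x => decide (P x) := by
  refine measurable_to_bool ?_
  have : (fun x => decide (P x)) ⁻¹' {true} = {x | P x} := by ext; simp
  rw [this]
  exact measurableSet_setOfPred.2 hP

lemma meas_lim {d : ℕ → V → Bool} (hd : ∀ n, Measurable (d n)) : Measurable (lim d) := by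
  classical
  unfold lim
  refine meas_decide ?_
  exact Measurable.exists fun N => Measurable.forall fun n =>
    measurable_const.imp (Measurable.eq (hd n) measurable_const)

namespace Cub

variable (C : Cub G) {X : Type} [MeasurableSpace X]

include C in
lemma meas_bi {c : V → Bool} (hc : Measurable c) {f g : X → V} (hf : Measurable f)
    (hg : Measurable g) : Measurable fun x => Bi G c (f x) (g x) :=
  (C.meas_adj hf hg).and (Measurable.eq (hc.comp hf) (hc.comp hg)).not

include C in
lemma meas_exadj {a : X → V} (ha : Measurable a) {Q : X → V → Prop}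
    (hr : ∀ x y, Q x y → G.Adj (a x) y)
    (hQ : Measurable fun p : X × V => Q p.1 p.2) :
    Measurable fun x => ∃ y, Q x y :=
  C.meas_ex' ha (fun x y h => (hr x y h).reachable) hQ

include C in
lemma meas_two {R : V → V → Prop} (hR : Measurable fun p : V × V => R p.1 p.2)
    (hRa : ∀ a b, R a b → G.Adj a b) :
    Measurable fun v => ∃ a b, a ≠ b ∧ R v a ∧ R v b := by
  refine C.meas_exadj measurable_id (fun v a ⟨b, h⟩ => hRa _ _ h.2.1) ?_
  refine C.meas_exadj (a := fun p : V × V => p.1) measurable_fst (fun v a h => hRa _ _ h.2.2) ?_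
  refine (C.meas_eq (by fun_prop) (by fun_prop)).not.and (Measurable.and ?_ ?_)
  · exact hR.comp (f := fun q : (V × V) × V => (q.1.1, q.1.2)) (by fun_prop)
  · exact hR.comp (f := fun q : (V × V) × V => (q.1.1, q.2)) (by fun_prop)

include C in
lemma meas_happy {c : V → Bool} (hc : Measurable c) : Measurable (Happy G c) :=
  C.meas_two (C.meas_bi hc measurable_fst measurable_snd) fun _ _ h => h.1

include C in
lemma meas_coreY {c : V → Bool} (hc : Measurable c) (k : ℕ) :
    Measurable fun v => v ∈ CoreY G c k := by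
  induction k with
  | zero => exact measurable_const
  | succ k ih =>
    have := C.meas_two (R := fun v a => Bi G c v a ∧ a ∈ CoreY G c k)
      ((C.meas_bi hc measurable_fst measurable_snd).and (ih.comp measurable_snd))
      fun _ _ h => h.1.1
    have h2 : (fun v => v ∈ CoreY G c (k + 1)) = fun v => ∃ a b, a ≠ b ∧
        (Bi G c v a ∧ a ∈ CoreY G c k) ∧ (Bi G c v b ∧ b ∈ CoreY G c k) := by
      funext v
      apply propext
      constructor
      · rintro ⟨a, b, hab, ha, hb, haF, hbF⟩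
        exact ⟨a, b, hab, ⟨ha, haF⟩, hb, hbF⟩
      · rintro ⟨a, b, hab, ⟨ha, haF⟩, hb, hbF⟩
        exact ⟨a, b, hab, ha, hb, haF, hbF⟩
    rw [h2]
    exact this

include C in
lemma core_iff (c : V → Bool) (v : V) : v ∈ Core G c ↔ ∀ k, v ∈ CoreY G c k := by
  constructor
  · intro hv k
    induction k generalizing v with
    | zero => exact mem_univ _
    | succ k ih =>
      obtain ⟨a, b, hab, ha, hb, haF, hbF⟩ := leafless_core c v hv
      exact ⟨a, b, hab, ha, hb, ih a haF, ih b hbF⟩
  · intro hv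
    refine ⟨{v | ∀ k, v ∈ CoreY G c k}, ?_, hv⟩
    intro v hv
    have h1 : ∀ k, ∃ p : Fin 3 × Fin 3, C.nb p.1 v ≠ C.nb p.2 v ∧ Bi G c v (C.nb p.1 v) ∧
        Bi G c v (C.nb p.2 v) ∧ C.nb p.1 v ∈ CoreY G c k ∧ C.nb p.2 v ∈ CoreY G c k := by
      intro k
      obtain ⟨a, b, hab, ha, hb, haF, hbF⟩ := hv (k + 1)
      obtain ⟨i, rfl⟩ := (C.adj_iff _ _).1 ha.1
      obtain ⟨j, rfl⟩ := (C.adj_iff _ _).1 hb.1
      exact ⟨(i, j), hab, ha, hb, haF, hbF⟩
    choose p hp using h1
    obtain ⟨q, hq⟩ := Finite.exists_infinite_fiber p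
    have hq' : (p ⁻¹' {q}).Infinite := Set.infinite_coe_iff.1 hq
    obtain ⟨k0, hk0⟩ := hq'.nonempty
    have e0 : p k0 = q := hk0
    have h0 := hp k0
    rw [e0] at h0
    refine ⟨_, _, h0.1, h0.2.1, h0.2.2.1, fun k => ?_, fun k => ?_⟩
    · obtain ⟨m, hm, hkm⟩ := hq'.exists_gt k
      have em : p m = q := hm
      exact coreY_anti c hkm.le (em ▸ (hp m).2.2.2.1)
    · obtain ⟨m, hm, hkm⟩ := hq'.exists_gt k
      have em : p m = q := hm
      exact coreY_anti c hkm.le (em ▸ (hp m).2.2.2.2)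

include C in
lemma meas_core {c : V → Bool} (hc : Measurable c) : Measurable fun v => v ∈ Core G c := by
  simp_rw [C.core_iff]
  exact Measurable.forall fun k => C.meas_coreY hc k

include C in
/-- choose, on each component, the first colouring of a list whose core meets it -/
lemma choose_first (c : ℕ → V → Bool) (hc : ∀ k, Measurable (c k))
    (h : ∀ v, ∃ k, ∃ t, G.Reachable v t ∧ t ∈ Core G (c k)) :
    ∃ d : V → Bool, Measurable d ∧ ∀ v, ∃ t, G.Reachable v t ∧ t ∈ Core G d := by
  classical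
  have hm : ∀ k, MeasurableSet {v | ∃ t, G.Reachable v t ∧ t ∈ Core G (c k)} := fun k =>
    measurableSet_setOfPred.2
      (C.meas_ex measurable_id ((C.meas_core (hc k)).comp measurable_snd))
  have hinv : ∀ u v, G.Reachable u v → Nat.find (h u) = Nat.find (h v) := by
    have key : ∀ u v, G.Reachable u v → Nat.find (h u) ≤ Nat.find (h v) := by
      intro u v huv
      obtain ⟨t, ht, ht'⟩ := Nat.find_spec (h v)
      exact Nat.find_min' _ ⟨t, huv.trans ht, ht'⟩
    exact fun u v huv => le_antisymm (key u v huv) (key v u huv.symm)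
  refine ⟨fun v => c (Nat.find (h v)) v, Measurable.find hc hm h, fun v => ?_⟩
  obtain ⟨t, ht, ht'⟩ := Nat.find_spec (h v)
  refine ⟨t, ht, {w | G.Reachable v w ∧ w ∈ Core G (c (Nat.find (h v)))}, ?_, ht, ht'⟩
  rintro w ⟨hw, hw'⟩
  obtain ⟨a, b, hab, ha, hb, haF, hbF⟩ := leafless_core _ w hw'
  have ra := hw.trans ha.1.reachable
  have rb := hw.trans hb.1.reachable
  refine ⟨a, b, hab, ⟨ha.1, ?_⟩, ⟨hb.1, ?_⟩, ⟨ra, haF⟩, ⟨rb, hbF⟩⟩
  · simp only [← hinv v w hw, ← hinv v a ra]
    exact ha.2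
  · simp only [← hinv v w hw, ← hinv v b rb]
    exact hb.2

end Cub

end Pool.Agent.P.MP_bd6b97_lc
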