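import Pool.Agent.P.MP_bd6b97_lc.Roots

set_option autoImplicit false

namespace Pool.Agent.P.MP_bd6b97_lc

open Set Function Relation MeasureTheory

theorem exists_happy {V : Type} [MeasurableSpace V] [StandardBorelSpace V] (G : SimpleGraph V)
    (hG : MeasurableSet {p : V × V | G.Adj p.1 p.2})
    (h3 : ∀ v : V, (G.neighborSet v).ncard = 3) :
    ∃ d : V → Bool, Measurable d ∧ ∀ v, Happy G d v := by
  obtain ⟨C⟩ := nonempty_cub G hG h3
  let A : Set V := {v | ¬ ∃ t, G.Reachable v t ∧ Tgt G ∅ t}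
  have hA : MeasurableSet A := measurableSet_setOfPred.2
    (C.meas_ex measurable_id ((C.meas_tgt measurable_const).comp measurable_snd)).not
  have hcl : ∀ v w, v ∈ A → G.Adj v w → w ∈ A := fun v w hv hw ⟨t, ht, ht'⟩ =>
    hv ⟨t, hw.reachable.trans ht, ht'⟩
  have : StandardBorelSpace A := hA.standardBorel
  have hac : (G.induce A).IsAcyclic := by
    intro t p hp
    exact t.2 ⟨t, .refl _, tgt_of_cycle (p.map (SimpleGraph.Embedding.induce A).toHom)
      (hp.map Subtype.val_injective)⟩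
  have hG' : MeasurableSet {p : A × A | (G.induce A).Adj p.1 p.2} :=
    measurableSet_setOfPred.2 (C.meas_adj (f := fun p : A × A => (p.1 : V))
      (g := fun p : A × A => (p.2 : V)) (by fun_prop) (by fun_prop))
  have h3' : ∀ v : A, ((G.induce A).neighborSet v).ncard = 3 := by
    intro v
    rw [← h3 v, ← Set.ncard_image_of_injective _ Subtype.val_injective]
    congr 1
    ext w
    constructor
    · rintro ⟨x, hx, rfl⟩
      exact hx
    · exact fun hw => ⟨⟨w, hcl v w v.2 hw⟩, hw, rfl⟩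
  obtain ⟨C'⟩ := nonempty_cub (G.induce A) hG' h3'
  obtain ⟨d, hd, hd'⟩ := C'.exists_core hac
  let c : V → Bool := Function.extend Subtype.val d fun _ => false
  have hc : Measurable c :=
    (MeasurableEmbedding.subtype_coe hA).measurable_extend hd measurable_const
  have hcd : ∀ x : A, c x = d x := fun x => Subtype.val_injective.extend_apply d _ x
  refine C.exists_happy_of_tgt hc (C.meas_core hc) (leafless_core c) fun v => ?_
  by_cases hv : v ∈ A
  · obtain ⟨t, ht, F, hF, htF⟩ := hd' ⟨v, hv⟩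
    refine ⟨t, ht.map (SimpleGraph.Embedding.induce A).toHom, fun u hu => good_of_mem hu ?_⟩
    refine ⟨Subtype.val '' F, ?_, t, htF, rfl⟩
    rintro _ ⟨x, hx, rfl⟩
    obtain ⟨a, b, hab, ha, hb, haF, hbF⟩ := hF x hx
    refine ⟨a, b, fun h => hab (Subtype.ext h), ⟨ha.1, ?_⟩, ⟨hb.1, ?_⟩, ⟨a, haF, rfl⟩,
      ⟨b, hbF, rfl⟩⟩
    · rw [hcd, hcd]; exact ha.2
    · rw [hcd, hcd]; exact hb.2
  · obtain ⟨t, ht, ht'⟩ := not_not.1 hv
    exact ⟨t, ht, fun u hu => (ht' u hu).mono (empty_subset _)⟩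

lemma ncard_le_of_happy {V : Type} {G : SimpleGraph V} {c : V → Bool} {v : V}
    (h3 : (G.neighborSet v).ncard = 3) (h : Happy G c v) :
    {w : V | G.Adj v w ∧ c w = c v}.ncard ≤ {w : V | G.Adj v w ∧ c w ≠ c v}.ncard := by
  have hfin : (G.neighborSet v).Finite := Set.finite_of_ncard_ne_zero (by omega)
  have f1 : {w : V | G.Adj v w ∧ c w = c v}.Finite := hfin.subset fun w hw => hw.1
  have f2 : {w : V | G.Adj v w ∧ c w ≠ c v}.Finite := hfin.subset fun w hw => hw.1
  have h1 : {w : V | G.Adj v w ∧ c w = c v}.ncard + {w : V | G.Adj v w ∧ c w ≠ c v}.ncard = 3 := by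
    rw [← h3, ← Set.ncard_union_eq _ f1 f2]
    · congr 1
      ext w
      simp only [mem_union, mem_ofPred_eq, SimpleGraph.mem_neighborSet]
      tauto
    · exact Set.disjoint_left.2 fun w h1 h2 => h2.2 h1.2
  obtain ⟨a, b, hab, ha, hb⟩ := h
  have h2 : 1 < {w : V | G.Adj v w ∧ c w ≠ c v}.ncard :=
    (Set.one_lt_ncard f2).2 ⟨a, ⟨ha.1, ha.2.symm⟩, b, ⟨hb.1, hb.2.symm⟩, hab⟩
  omega

end Pool.Agent.P.MP_bd6b97_lc
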