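import Pool.Agent.P.MP_bd6b97_lc.Tree

set_option autoImplicit false

namespace Pool.Agent.P.MP_bd6b97_lc

open Set Function Relation MeasureTheory

variable {V : Type}

/-- joined by a bichromatic walk -/
def Cl (G : SimpleGraph V) (c : V → Bool) (a b : V) : Prop := ReflTransGen (Bi G c) a b

variable {G : SimpleGraph V}

lemma Cl.refl (c : V → Bool) (a : V) : Cl G c a a := ReflTransGen.refl

lemma Cl.trans {c : V → Bool} {a b d : V} (h : Cl G c a b) (h' : Cl G c b d) : Cl G c a d :=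
  ReflTransGen.trans h h'

lemma Cl.symm {c : V → Bool} {a b : V} (h : Cl G c a b) : Cl G c b a := by
  induction h with
  | refl => exact ReflTransGen.refl
  | tail _ h ih => exact ReflTransGen.head h.symm ih

lemma Cl.reach {c : V → Bool} {a b : V} (h : Cl G c a b) : G.Reachable a b :=
  rtg_reach (fun _ _ h => h.1) h

lemma Bi.cl {c : V → Bool} {a b : V} (h : Bi G c a b) : Cl G c a b := ReflTransGen.single h

/-- vertices on infinite branches of the class of `y`, seen from `x` -/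
def Ray (G : SimpleGraph V) (c : V → Bool) (x y : V) : Set V :=
  {z | Cl G c y z ∧ ∃ p, G.Adj p z ∧ Sd G p z x ∧ {t | Cl G c y t ∧ Sd G z p t}.Infinite}

section ray

variable (hG : G.IsAcyclic) {c : V → Bool} {x y : V} (hxy : G.Adj x y) (hc : c y = c x)
include hG hxy hc

lemma not_cl : ¬ Cl G c y x := by
  intro h
  exact (crossing hG (fun _ _ h => h.1) hxy.symm (.refl _) h (sd_self hxy.symm)
    (sd_self hxy)).2.2 hc

lemma ray_self (hinf : {t | Cl G c y t}.Infinite) : y ∈ Ray G c x y := by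
  refine ⟨Cl.refl c y, x, hxy, sd_self hxy, hinf.mono fun t ht => ⟨ht, ?_⟩⟩
  exact Sd.rtg hG (fun _ _ h => h.1) hxy.symm (.refl _) ht (sd_self hxy.symm)
    (not_cl hG hxy hc)

omit hc in
lemma ray_child (hfin : ∀ v, {w | G.Adj v w}.Finite) {z : V} (hz : z ∈ Ray G c x y) :
    ∃ z' ∈ Ray G c x y, Bi G c z z' ∧ Sd G z z' x := by
  obtain ⟨hyz, p, hpz, hx, hinf⟩ := hz
  have hxz : G.Reachable x z := hxy.reachable.trans hyz.reach
  have h1 : {t | Cl G c y t ∧ Sd G z p t} ⊆
      {z} ∪ ⋃ w ∈ {w | G.Adj z w ∧ w ≠ p}, {t | Cl G c y t ∧ Sd G w z t} := by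
    rintro t ⟨ht, ht'⟩
    by_cases htz : z = t
    · exact Or.inl htz.symm
    · obtain ⟨w, hw, hw'⟩ := exists_closer (ht.reach.symm.trans hyz.reach) htz
      refine Or.inr (mem_biUnion (x := w) ⟨hw, ?_⟩ ⟨ht, by unfold Sd; omega⟩)
      rintro rfl
      unfold Sd at ht'
      omega
  have h2 : ∃ w, (G.Adj z w ∧ w ≠ p) ∧ {t | Cl G c y t ∧ Sd G w z t}.Infinite := by
    by_contra hcon
    push Not at hcon
    exact hinf (((finite_singleton z).union
      (((hfin z).subset fun w hw => hw.1).biUnion fun w hw => hcon w hw)).subset h1)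
  obtain ⟨w, ⟨hw, hwp⟩, hinf'⟩ := h2
  have h3 : Sd G z w x := sd_total hG hw.symm (hxz.trans hw.reachable)
    fun h => hwp (closer_unique hG hw hpz.symm hxz h hx)
  have h4 : Sd G z w y := by
    refine h3.step hG hw hxy hxz ?_
    rintro ⟨rfl, -⟩
    unfold Sd at hx
    simp at hx
  obtain ⟨t, ht, ht'⟩ := hinf'.nonempty
  obtain ⟨-, h6⟩ := crossing hG (fun _ _ h => h.1) hw hyz.reach ht h4 ht'
  exact ⟨w, ⟨hyz.trans h6.cl, z, hw, h3, hinf'⟩, h6, h3⟩

lemma ray_parent {z : V} (hz : z ∈ Ray G c x y) (hne : z ≠ y) :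
    ∃ p ∈ Ray G c x y, Bi G c z p ∧ Sd G p z x := by
  obtain ⟨hyz, p, hpz, hx, hinf⟩ := hz
  have hxz : G.Reachable x z := hxy.reachable.trans hyz.reach
  have hxp : G.Reachable x p := hxz.trans hpz.symm.reachable
  have h4 : Sd G p z y := hx.step hG hpz hxy hxp fun h => hne h.2.symm
  obtain ⟨h5, h6⟩ := crossing hG (fun _ _ h => h.1) hpz (hxy.symm.reachable.trans hxp) hyz h4
    (sd_self hpz.symm)
  have hpx : p ≠ x := by
    rintro rfl
    exact not_cl hG hxy hc h5
  obtain ⟨q, hq, hq'⟩ := exists_closer hxp hpx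
  refine ⟨p, ⟨h5, q, hq.symm, by unfold Sd; omega, hinf.mono ?_⟩, h6.symm, hx⟩
  rintro t ⟨ht, ht'⟩
  have htp : G.Reachable t p := ht.reach.symm.trans (Cl.reach h5)
  refine ⟨ht, sd_total hG hq.symm (htp.trans hq.reachable) fun h => ?_⟩
  have := closer_unique hG hq hpz htp h ht'
  subst this
  unfold Sd at hx
  omega

lemma ray_happy (hfin : ∀ v, {w | G.Adj v w}.Finite) {z : V} (hz : z ∈ Ray G c x y)
    (hne : z ≠ y) : ∃ a b, a ≠ b ∧ Bi G c z a ∧ Bi G c z b ∧
      a ∈ Ray G c x y ∧ b ∈ Ray G c x y := by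
  obtain ⟨a, ha, ha1, ha2⟩ := ray_child hG hxy hfin hz
  obtain ⟨b, hb, hb1, hb2⟩ := ray_parent hG hxy hc hz hne
  exact ⟨a, b, by rintro rfl; exact ha2.asymm hb2, ha1, hb1, ha, hb⟩

lemma ray_leafless (hfin : ∀ v, {w | G.Adj v w}.Finite) {c' : V → Bool} (hx : c' x ≠ c x)
    (hy : c' y = c y) (hh : ∀ z, Happy G c z → c' z = c z) {z : V} (hz : z ∈ Ray G c x y) :
    ∃ a b, a ≠ b ∧ Bi G c' z a ∧ Bi G c' z b ∧
      a ∈ insert x (Ray G c x y) ∧ b ∈ insert x (Ray G c x y) := by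
  have key : ∀ w ∈ Ray G c x y, c' w = c w := by
    intro w hw
    by_cases hwy : w = y
    · rw [hwy, hy]
    · obtain ⟨a, b, hab, ha, hb, -⟩ := ray_happy hG hxy hc hfin hw hwy
      exact hh w ⟨a, b, hab, ha, hb⟩
  by_cases hzy : z = y
  · subst hzy
    obtain ⟨a, ha, ha1, ha2⟩ := ray_child hG hxy hfin hz
    refine ⟨x, a, ?_, ⟨hxy.symm, ?_⟩, ⟨ha1.1, ?_⟩, mem_insert _ _, mem_insert_of_mem _ ha⟩
    · rintro rfl
      unfold Sd at ha2
      simp at ha2
    · rw [hy, hc]; exact hx.symm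
    · rw [hy, key a ha]; exact ha1.2
  · obtain ⟨a, b, hab, ha, hb, haR, hbR⟩ := ray_happy hG hxy hc hfin hz hzy
    refine ⟨a, b, hab, ⟨ha.1, ?_⟩, ⟨hb.1, ?_⟩, mem_insert_of_mem _ haR, mem_insert_of_mem _ hbR⟩
    · rw [key z hz, key a haR]; exact ha.2
    · rw [key z hz, key b hbR]; exact hb.2

end ray

lemma mem_core_of_rays (hG : G.IsAcyclic) (hfin : ∀ v, {w | G.Adj v w}.Finite)
    {c c' : V → Bool} {x y y' : V} (hyy : y ≠ y') (hxy : G.Adj x y) (hxy' : G.Adj x y')
    (hc : c y = c x) (hc' : c y' = c x) (hi : {t | Cl G c y t}.Infinite)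
    (hi' : {t | Cl G c y' t}.Infinite) (hx : c' x ≠ c x) (hy : c' y = c y) (hy' : c' y' = c y')
    (hh : ∀ z, Happy G c z → c' z = c z) : x ∈ Core G c' := by
  refine ⟨insert x (Ray G c x y ∪ Ray G c x y'), ?_, mem_insert _ _⟩
  rintro z (rfl | hz | hz)
  · refine ⟨y, y', hyy, ⟨hxy, ?_⟩, ⟨hxy', ?_⟩, mem_insert_of_mem _ (Or.inl
      (ray_self hG hxy hc hi)), mem_insert_of_mem _ (Or.inr (ray_self hG hxy' hc' hi'))⟩
    · rw [hy, hc]; exact hx
    · rw [hy', hc']; exact hx
  · obtain ⟨a, b, hab, ha, hb, haR, hbR⟩ := ray_leafless hG hxy hc hfin hx hy hh hz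
    exact ⟨a, b, hab, ha, hb, insert_subset_insert subset_union_left haR,
      insert_subset_insert subset_union_left hbR⟩
  · obtain ⟨a, b, hab, ha, hb, haR, hbR⟩ := ray_leafless hG hxy' hc' hfin hx hy' hh hz
    exact ⟨a, b, hab, ha, hb, insert_subset_insert subset_union_right haR,
      insert_subset_insert subset_union_right hbR⟩

variable [MeasurableSpace V]

namespace Cub

variable (C : Cub G)

/-- vertices flipped by a merging step -/
def MW (n : ℕ) (c : V → Bool) (v : V) : Prop :=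
  {z | Cl G c v z}.Finite ∧ (∀ z, Cl G c v z → z ∈ C.U n) ∧
    ∀ z, Cl G c v z → ∀ w, G.Adj z w → ¬ Cl G c v w → w ∉ C.U n

open Classical in
/-- the merging dynamics -/
noncomputable def mc : ℕ → V → Bool
  | 0 => fun _ => false
  | n + 1 => fun v => if C.MW n (mc n) v then !mc n v else mc n v

/-- same class at time `n` -/
def E (n : ℕ) (a b : V) : Prop := Cl G (C.mc n) a b

/-- flipped at time `n` -/
def Fl (n : ℕ) (v : V) : Prop := C.MW n (C.mc n) v

variable {X : Type} [MeasurableSpace X]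

include C in
lemma meas_cl {c : V → Bool} (hc : Measurable c) {f g : X → V} (hf : Measurable f)
    (hg : Measurable g) : Measurable fun x => Cl G c (f x) (g x) :=
  C.meas_rtgV _ (C.meas_bi hc measurable_fst measurable_snd) (fun _ _ h => h.1) hf hg

lemma meas_MW (n : ℕ) {c : V → Bool} (hc : Measurable c) : Measurable (C.MW n c) := by
  have hU : Measurable fun v => v ∈ C.U n := measurableSet_setOfPred.1 (C.meas_U n)
  have h1 : (fun v => {z | Cl G c v z}.Finite) =
      fun v => ∃ k, ∀ z, Cl G c v z → G.dist v z ≤ k := by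
    funext v
    apply propext
    constructor
    · intro h
      obtain ⟨k, hk⟩ := (h.image fun z => G.dist v z).bddAbove
      exact ⟨k, fun z hz => hk ⟨z, hz, rfl⟩⟩
    · rintro ⟨k, hk⟩
      exact (C.finite_ball v k).subset fun z hz => ⟨Cl.reach hz, hk z hz⟩
  refine Measurable.and ?_ (Measurable.and ?_ ?_)
  · rw [h1]
    exact Measurable.exists fun k => C.meas_all' measurable_id (fun _ _ h => h.reach)
      (C.meas_cl hc measurable_fst measurable_snd)
      (Measurable.le' (C.meas_dist measurable_fst measurable_snd) measurable_const)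
  · exact C.meas_all' measurable_id (fun _ _ h => h.reach)
      (C.meas_cl hc measurable_fst measurable_snd) (hU.comp measurable_snd)
  · refine C.meas_all' measurable_id (fun _ _ h => h.reach)
      (C.meas_cl hc measurable_fst measurable_snd) ?_
    exact C.meas_all' (a := fun p : V × V => p.2) measurable_snd (fun _ _ h => h.reachable)
      (C.meas_adj (by fun_prop) measurable_snd)
      ((C.meas_cl hc (by fun_prop) measurable_snd).not.imp (hU.comp measurable_snd).not)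

lemma meas_mc (n : ℕ) : Measurable (C.mc n) := by
  classical
  induction n with
  | zero => exact measurable_const
  | succ n ih =>
    refine Measurable.ite (measurableSet_setOfPred.2 (C.meas_MW n ih)) ?_ ih
    exact (measurable_of_countable fun b : Bool => !b).comp ih

lemma meas_E (n : ℕ) {f g : X → V} (hf : Measurable f) (hg : Measurable g) :
    Measurable fun x => C.E n (f x) (g x) := C.meas_cl (C.meas_mc n) hf hg

lemma meas_Fl (n : ℕ) : Measurable (C.Fl n) := C.meas_MW n (C.meas_mc n)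

variable {C}

lemma Fl.of_E {n : ℕ} {a b : V} (h : C.Fl n a) (hab : C.E n a b) : C.Fl n b := by
  obtain ⟨h1, h2, h3⟩ := h
  exact ⟨h1.subset fun z hz => Cl.trans hab hz, fun z hz => h2 z (Cl.trans hab hz),
    fun z hz w hw hw' => h3 z (Cl.trans hab hz) w hw fun h => hw' (Cl.trans (Cl.symm hab) h)⟩

lemma Fl.E_of_adj {n : ℕ} {a b : V} (ha : C.Fl n a) (hb : C.Fl n b) (hab : G.Adj a b) :
    C.E n a b := by
  by_contra hcon
  exact ha.2.2 a (Cl.refl _ _) b hab hcon (hb.2.1 b (Cl.refl _ _))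

lemma mc_pos {n : ℕ} {a : V} (h : C.Fl n a) : C.mc (n + 1) a = !C.mc n a := by
  simp only [mc]; exact if_pos h

lemma mc_neg {n : ℕ} {a : V} (h : ¬ C.Fl n a) : C.mc (n + 1) a = C.mc n a := by
  simp only [mc]; exact if_neg h

lemma E.succ {n : ℕ} {a b : V} (h : C.E n a b) : C.E (n + 1) a b := by
  refine ReflTransGen.mono (r := Bi G (C.mc n)) ?_ a b h
  intro x y hxy
  refine ⟨hxy.1, ?_⟩
  by_cases hx : C.Fl n x
  · rw [mc_pos hx, mc_pos (hx.of_E hxy.cl)]
    simpa using hxy.2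
  · have hy : ¬ C.Fl n y := fun h => hx (h.of_E hxy.symm.cl)
    rw [mc_neg hx, mc_neg hy]
    exact hxy.2

lemma E.mono {m n : ℕ} (hmn : m ≤ n) {a b : V} (h : C.E m a b) : C.E n a b := by
  induction n, hmn using Nat.le_induction with
  | base => exact h
  | succ n _ ih => exact ih.succ

lemma Fl.E_succ {n : ℕ} {a b : V} (ha : C.Fl n a) (hab : G.Adj a b) : C.E (n + 1) a b := by
  by_cases hb : C.Fl n b
  · exact (ha.E_of_adj hb hab).succ
  · refine Bi.cl ⟨hab, ?_⟩
    have : C.mc n a = C.mc n b := by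
      by_contra hne
      exact hb (ha.of_E (Bi.cl ⟨hab, hne⟩))
    rw [mc_pos ha, mc_neg hb, this]
    simp

variable (C)

/-- flipped infinitely often -/
def IO (v : V) : Prop := ∀ N, ∃ n, N ≤ n ∧ C.Fl n v

variable {C}

lemma IO.adj {a b : V} (h : C.IO a) (hab : G.Adj a b) : C.IO b := by
  obtain ⟨m, -, hm⟩ := h 0
  intro N
  obtain ⟨n, hn, hn'⟩ := h (max N (m + 1))
  exact ⟨n, (le_max_left _ _).trans hn,
    hn'.of_E ((hm.E_succ hab).mono ((le_max_right _ _).trans hn))⟩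

lemma IO.reach {a b : V} (h : C.IO a) (hab : G.Reachable a b) :
    C.IO b ∧ ∃ n, C.E n a b := by
  rw [SimpleGraph.reachable_iff_reflTransGen] at hab
  induction hab with
  | refl => exact ⟨h, 0, Cl.refl _ _⟩
  | tail _ hxy ih =>
    obtain ⟨h1, n, hn⟩ := ih
    obtain ⟨m, hm, hm'⟩ := h1 n
    exact ⟨h1.adj hxy, m + 1, Cl.trans (hn.mono (by omega)) (hm'.E_succ hxy)⟩

lemma infinite_of_not_IO {v : V} (h : ¬ C.IO v) : {t | Cl G (lim C.mc) v t}.Infinite := by
  intro hfin
  have hst : ∀ x, G.Reachable v x → ∃ N, ∀ n, N ≤ n → C.mc (n + 1) x = C.mc n x := by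
    intro x hx
    have h1 : ¬ C.IO x := fun h' => h (h'.reach hx.symm).1
    unfold IO at h1
    push Not at h1
    obtain ⟨N, hN⟩ := h1
    exact ⟨N, fun n hn => mc_neg (hN n hn)⟩
  set D := {t | Cl G (lim C.mc) v t} with hD
  have hB : (⋃ z ∈ D, {w | G.Adj z w}).Finite := hfin.biUnion fun z _ => C.finite_nbr z
  obtain ⟨N, hN⟩ := lim_eq_finite (d := C.mc) (hfin.union hB) (by
    rintro x (hx | hx)
    · exact hst x (Cl.reach hx)
    · obtain ⟨z, hz, hzx⟩ := mem_iUnion₂.1 hx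
      exact hst x ((Cl.reach hz).trans (SimpleGraph.Adj.reachable hzx)))
  have hbi : ∀ n, N ≤ n → ∀ z ∈ D, ∀ w, Bi G (C.mc n) z w ↔ Bi G (lim C.mc) z w := by
    intro n hn z hz w
    refine and_congr_right fun hzw => ?_
    rw [hN n hn z (Or.inl hz), hN n hn w (Or.inr (mem_biUnion hz hzw))]
  have hcl : ∀ n, N ≤ n → ∀ z, Cl G (C.mc n) v z ↔ z ∈ D := by
    intro n hn z
    constructor
    · intro hz
      induction hz with
      | refl => exact Cl.refl _ _
      | tail _ hxy ih => exact ReflTransGen.tail ih ((hbi n hn _ ih _).1 hxy)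
    · intro hz
      induction hz with
      | refl => exact Cl.refl _ _
      | tail hx hxy ih => exact ReflTransGen.tail ih ((hbi n hn _ hx _).2 hxy)
  obtain ⟨n, hn, h1, h2⟩ := C.sep D ((⋃ z ∈ D, {w | G.Adj z w}) \ D) hfin hB.sdiff
    disjoint_sdiff_right N
  have hfl : C.Fl n v := by
    refine ⟨hfin.subset fun z hz => (hcl n hn z).1 hz, fun z hz => h1 ((hcl n hn z).1 hz), ?_⟩
    intro z hz w hw hw'
    exact h2 w ⟨mem_biUnion ((hcl n hn z).1 hz) hw, fun h => hw' ((hcl n hn w).2 h)⟩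
  have e1 := hN n hn v (Or.inl (Cl.refl _ _))
  have e2 := hN (n + 1) (by omega) v (Or.inl (Cl.refl _ _))
  rw [mc_pos hfl, e1] at e2
  simp at e2

theorem core_of_not_IO (hG : G.IsAcyclic) {v : V} (h : ¬ C.IO v) :
    v ∈ Core G (lim C.mc) ∨
      ∃ n t, G.Reachable v t ∧ t ∈ Core G (C.fstep n (lim C.mc)) := by
  by_cases hall : ∀ x, G.Reachable v x → Happy G (lim C.mc) x
  · refine Or.inl ⟨{x | G.Reachable v x}, fun x hx => ?_, SimpleGraph.Reachable.refl v⟩
    obtain ⟨a, b, hab, ha, hb⟩ := hall x hx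
    exact ⟨a, b, hab, ha, hb, SimpleGraph.Reachable.trans hx ha.1.reachable,
      SimpleGraph.Reachable.trans hx hb.1.reachable⟩
  right
  push Not at hall
  obtain ⟨x, hx, hx'⟩ := hall
  have h1 : ∃ y y', y ≠ y' ∧ G.Adj x y ∧ G.Adj x y' ∧ lim C.mc y = lim C.mc x ∧
      lim C.mc y' = lim C.mc x := by
    by_cases hb : ∃ a, Bi G (lim C.mc) x a
    · obtain ⟨a, ha⟩ := hb
      obtain ⟨y, y', hyy, hy, hy', hya, hya'⟩ := C.exists_two x a
      refine ⟨y, y', hyy, hy, hy', ?_, ?_⟩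
      · by_contra hne
        exact hx' ⟨y, a, hya, ⟨hy, Ne.symm hne⟩, ha⟩
      · by_contra hne
        exact hx' ⟨y', a, hya', ⟨hy', Ne.symm hne⟩, ha⟩
    · obtain ⟨y, y', hyy, hy, hy', -, -⟩ := C.exists_two x x
      refine ⟨y, y', hyy, hy, hy', ?_, ?_⟩
      · by_contra hne
        exact hb ⟨y, hy, Ne.symm hne⟩
      · by_contra hne
        exact hb ⟨y', hy', Ne.symm hne⟩
  obtain ⟨y, y', hyy, hy, hy', hc, hc'⟩ := h1
  obtain ⟨n, -, h1, h2⟩ := C.sep {x} {w | G.Adj x w} (finite_singleton x) (C.finite_nbr x)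
    (by simp) 0
  have hn : ∀ w, G.Adj x w → ¬ C.IO w := fun w hw h' => h (h'.reach (hx.trans hw.reachable).symm).1
  have hno : ∀ w, G.Adj x w → C.fstep n (lim C.mc) w = lim C.mc w := by
    intro w hw
    exact if_neg fun h => h2 w hw h.2.1
  refine ⟨n, x, hx, mem_core_of_rays hG C.finite_nbr hyy hy hy' hc hc'
    (infinite_of_not_IO (hn y hy)) (infinite_of_not_IO (hn y' hy')) ?_ (hno y hy) (hno y' hy') ?_⟩
  · have : C.FW n (lim C.mc) x := ⟨hx', h1 rfl, h2⟩
    unfold fstep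
    rw [if_pos this]
    simp
  · intro z hz
    exact if_neg fun h => h.1 hz

end Cub

end Pool.Agent.P.MP_bd6b97_lc
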