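import Pool.Agent.P.MP_bd6b97_lc.Branch

set_option autoImplicit false

namespace Pool.Agent.P.MP_bd6b97_lc

open Set Function Relation

variable {V : Type}

/-- `z` is closer to `a` than to `b` -/
def Sd (G : SimpleGraph V) (a b z : V) : Prop := G.dist z a < G.dist z b

variable {G : SimpleGraph V}

lemma sd_self {a b : V} (h : G.Adj a b) : Sd G a b a := by
  unfold Sd
  rw [SimpleGraph.dist_self, SimpleGraph.dist_eq_one_iff_adj.2 h]
  exact zero_lt_one

lemma Sd.asymm {a b z : V} (h : Sd G a b z) : ¬ Sd G b a z := fun h' => lt_asymm h h'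

lemma rtg_reach {R : V → V → Prop} (hR : ∀ a b, R a b → G.Adj a b) {p q : V}
    (h : ReflTransGen R p q) : G.Reachable p q := by
  induction h with
  | refl => rfl
  | tail _ h ih => exact ih.trans (hR _ _ h).reachable

lemma exists_exit {P : Set V} {p r : V} (hp : p ∈ P) (hr : r ∉ P) (h : G.Reachable r p) :
    ∃ a b, a ∈ P ∧ b ∉ P ∧ G.Adj a b ∧ Sd G b a r := by
  induction hk : G.dist r p generalizing p with
  | zero =>
    have : r = p := h.dist_eq_zero_iff.1 hk
    exact absurd hp (this ▸ hr)
  | succ k ih =>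
    have hne : p ≠ r := by rintro rfl; exact hr hp
    obtain ⟨w, hw, hw'⟩ := exists_closer h hne
    by_cases hwP : w ∈ P
    · exact ih hwP (h.trans hw.reachable) (by omega)
    · exact ⟨p, w, hp, hwP, hw, by unfold Sd; omega⟩

section acyclic

variable (hG : G.IsAcyclic)
include hG

lemma sd_total {a b z : V} (h : G.Adj a b) (hr : G.Reachable z a) (hn : ¬ Sd G a b z) :
    Sd G b a z := by
  have := hG.dist_ne_of_adj h hr
  unfold Sd at *
  omega

lemma closer_unique {v a b z : V} (ha : G.Adj v a) (hb : G.Adj v b) (hr : G.Reachable z v)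
    (h1 : Sd G a v z) (h2 : Sd G b v z) : a = b := by
  unfold Sd at h1 h2
  obtain ⟨p, hp⟩ := (hr.trans ha.reachable).exists_walk_length_eq_dist
  obtain ⟨q, hq⟩ := (hr.trans hb.reachable).exists_walk_length_eq_dist
  have e1 := ha.diff_dist_adj (u := z)
  have e2 := hb.diff_dist_adj (u := z)
  have hp' : (p.concat ha.symm).IsPath :=
    SimpleGraph.Walk.isPath_of_length_eq_dist _ (by rw [SimpleGraph.Walk.length_concat]; omega)
  have hq' : (q.concat hb.symm).IsPath :=
    SimpleGraph.Walk.isPath_of_length_eq_dist _ (by rw [SimpleGraph.Walk.length_concat]; omega)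
  have := (hG.subsingleton_path z v).elim ⟨_, hp'⟩ ⟨_, hq'⟩
  have h3 : p.concat ha.symm = q.concat hb.symm := congrArg Subtype.val this
  exact (SimpleGraph.Walk.concat_inj h3).1

lemma cross_edge {a b z z' : V} (hab : G.Adj a b) (hz : G.Adj z z') (hr : G.Reachable z a)
    (h1 : Sd G a b z) (h2 : Sd G b a z') : z = a ∧ z' = b := by
  have hr' : G.Reachable z' b := (hz.symm.reachable.trans hr).trans hab.reachable
  have e1 := hab.diff_dist_adj (u := z)
  have e2 := hab.diff_dist_adj (u := z')
  have e3 := hG.dist_eq_dist_add_one_of_adj_of_reachable a hz hr.symm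
  have e4 := hz.diff_dist_adj (u := b)
  rw [SimpleGraph.dist_comm (u := a), SimpleGraph.dist_comm (u := a)] at e3
  rw [SimpleGraph.dist_comm (u := b), SimpleGraph.dist_comm (u := b)] at e4
  have h1' := h1
  unfold Sd at h1 h2
  by_cases hb : b = z'
  · subst hb
    refine ⟨?_, rfl⟩
    rw [SimpleGraph.dist_eq_one_iff_adj.2 hz] at h1
    exact hr.dist_eq_zero_iff.1 (by omega)
  · exfalso
    obtain ⟨w, hw, hw'⟩ := exists_closer hr' hb
    have e5 := hz.diff_dist_adj (u := w)
    rw [SimpleGraph.dist_comm (u := w), SimpleGraph.dist_comm (u := w)] at e5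
    have : a = w := closer_unique hG hab.symm hw (hr.trans hab.reachable) h1'
      (by unfold Sd; omega)
    subst this
    omega

lemma crossing {R : V → V → Prop} (hR : ∀ a b, R a b → G.Adj a b) {a b p q : V}
    (hab : G.Adj a b) (hr : G.Reachable p a) (h : ReflTransGen R p q)
    (h1 : Sd G a b p) (h2 : Sd G b a q) : ReflTransGen R p a ∧ R a b := by
  induction h with
  | refl => exact absurd h2 h1.asymm
  | @tail x y hx hxy ih =>
    by_cases h3 : Sd G b a x
    · exact ih h3
    · have hrx : G.Reachable x a := (rtg_reach hR hx).symm.trans hr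
      have h4 := sd_total hG hab.symm (hrx.trans hab.reachable) h3
      obtain ⟨rfl, rfl⟩ := cross_edge hG hab (hR _ _ hxy) hrx h4 h2
      exact ⟨hx, hxy⟩

lemma dist_lt_of_sides {a b r z : V} (hab : G.Adj a b) (hr : G.Reachable r a)
    (hz : G.Reachable r z) (h1 : Sd G b a r) (h2 : Sd G a b z) : G.dist r b < G.dist r z := by
  induction hk : G.dist r z generalizing z with
  | zero =>
    have : r = z := hz.dist_eq_zero_iff.1 hk
    subst this
    exact absurd h2 h1.asymm
  | succ k ih =>
    have hne : z ≠ r := by rintro rfl; exact h1.asymm h2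
    obtain ⟨w, hw, hw'⟩ := exists_closer hz hne
    have hrw := hz.trans hw.reachable
    by_cases h3 : Sd G a b w
    · have := ih hrw h3 (by omega)
      omega
    · have h4 := sd_total hG hab (hrw.symm.trans hr) h3
      obtain ⟨-, rfl⟩ := cross_edge hG hab hw (hz.symm.trans hr) h2 h4
      omega

lemma not_both_behind {a b x y r : V} (hab : G.Adj a b) (hxy : G.Adj x y)
    (ha : G.Reachable r a) (hx : G.Reachable r x) (h1 : Sd G b a r) (h2 : Sd G y x r)
    (h3 : Sd G a b y) (h4 : Sd G x y b) : False := by
  have e1 := dist_lt_of_sides hG hab ha (hx.trans hxy.reachable) h1 h3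
  have e2 := dist_lt_of_sides hG hxy hx (ha.trans hab.reachable) h2 h4
  omega

/-- moving along an edge keeps the side unless the edge is the given one -/
lemma Sd.step {a b z z' : V} (hab : G.Adj a b) (hz : G.Adj z z') (hr : G.Reachable z a)
    (h1 : Sd G a b z) (hne : ¬ (z = a ∧ z' = b)) : Sd G a b z' := by
  by_contra hcon
  exact hne (cross_edge hG hab hz hr h1
    (sd_total hG hab (hz.symm.reachable.trans hr) hcon))

/-- a connected set not containing `b` stays on the side of `a` -/
lemma Sd.rtg {R : V → V → Prop} (hR : ∀ a b, R a b → G.Adj a b) {a b p q : V}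
    (hab : G.Adj a b) (hr : G.Reachable p a) (h : ReflTransGen R p q)
    (h1 : Sd G a b p) (hb : ¬ ReflTransGen R p b) : Sd G a b q := by
  by_contra hcon
  have h2 := sd_total hG hab ((rtg_reach hR h).symm.trans hr) hcon
  obtain ⟨h3, h4⟩ := crossing hG hR hab hr h h1 h2
  exact hb (h3.tail h4)

/-- a connected set not containing `a` stays on its side -/
lemma Sd.rtg' {R : V → V → Prop} (hR : ∀ a b, R a b → G.Adj a b) {a b p q : V}
    (hab : G.Adj a b) (hr : G.Reachable p a) (h : ReflTransGen R p q)
    (h1 : Sd G a b p) (ha : ¬ ReflTransGen R p a) : Sd G a b q := by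
  by_contra hcon
  have h2 := sd_total hG hab ((rtg_reach hR h).symm.trans hr) hcon
  exact ha (crossing hG hR hab hr h h1 h2).1

end acyclic

end Pool.Agent.P.MP_bd6b97_lc
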