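import Pool.Agent.P.MP_bd6b97_lc.Th.Need

set_option autoImplicit false

open Pool.Agent.P.MP_bd6b97_lc.G4 in
/-- The earlier hand-in, as the case of the demands `min 2 ⌈deg / 2⌉`: a Borel 2-colouring that is
unfriendly at every vertex of degree at most four and gives every vertex of degree at least three
two neighbours of the other colour. -/
theorem Pool.Agent.P.MP_bd6b97_lc.VariantDegreeFour.degreeFour :
    ∀ (V : Type) [MeasurableSpace V] [StandardBorelSpace V] (G : SimpleGraph V),
      MeasurableSet {p : V × V | G.Adj p.1 p.2} →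
      (∀ v : V, (G.neighborSet v).Finite) →
      ∃ c : V → Bool, Measurable c ∧ ∀ v : V,
        ((G.neighborSet v).ncard ≤ 4 →
          {w : V | G.Adj v w ∧ c w = c v}.ncard ≤ {w : V | G.Adj v w ∧ c w ≠ c v}.ncard) ∧
        (3 ≤ (G.neighborSet v).ncard → 2 ≤ {w : V | G.Adj v w ∧ c w ≠ c v}.ncard) := by
  intro V _ _ G hG hf
  have hs : ∀ v, (tau G v : ℕ) = min 3 (G.neighborSet v).ncard := tau_spec hf
  obtain ⟨c, hc, h⟩ := need_main G hG hf
    (fun _ v => ((tau G v : ℕ) + 1) / 2)
    (fun _ => (measurable_of_countable fun t : Fin 4 => ((t : ℕ) + 1) / 2).comp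
      (meas_tau hG (cov_of_finite hG hf)))
    (fun v => by have := hs v; change _ ≤ (G.neighborSet v).ncard + 1; omega)
    (fun v => by have := hs v; omega)
  refine ⟨c, hc, fun v => ?_⟩
  have f1 : {w : V | G.Adj v w ∧ c w = c v}.Finite := (hf v).subset fun w hw => hw.1
  have f2 : {w : V | G.Adj v w ∧ c w ≠ c v}.Finite := (hf v).subset fun w hw => hw.1
  have hsum : {w : V | G.Adj v w ∧ c w = c v}.ncard + {w : V | G.Adj v w ∧ c w ≠ c v}.ncard =
      (G.neighborSet v).ncard := by
    rw [← Set.ncard_union_eq _ f1 f2]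
    · congr 1
      ext w
      simp only [Set.mem_union, Set.mem_ofPred_eq, SimpleGraph.mem_neighborSet]
      tauto
    · exact Set.disjoint_left.2 fun w h1 h2 => h2.2 h1.2
  have := h v
  have := hs v
  exact ⟨fun _ => by omega, fun _ => by omega⟩
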